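import Pool.Agent.helper81.CI.Spec

/-!
# Project ci: module VLI
-/

set_option autoImplicit false

open MeasureTheory Set Filter Topology
open scoped ENNReal
open Pool.Agent.helper81.CW Pool.Agent.CL

namespace Pool.Agent.CI

theorem VLI (hFAR : FAR_stmt) : VLI_stmt := by
  intro n C t hC ht
  obtain ⟨hne, hcp, -, -, -⟩ := hC
  have hnn : ∀ x, 0 ≤ far C x := by
    intro x
    obtain ⟨-, ⟨c, hc, hcx⟩, -, -⟩ := hFAR n C hcp hne x x
    rw [← hcx]
    exact norm_nonneg _
  have hlip : LipschitzWith 1 (far C) := by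
    refine LipschitzWith.of_dist_le_mul fun x y => ?_
    rw [Real.dist_eq, dist_eq_norm, NNReal.coe_one, one_mul]
    exact (hFAR n C hcp hne x y).2.2.1
  have hcont : Continuous (far C) := hlip.continuous
  unfold NN SZ
  refine iSup_mono fun z => ?_
  have hmeas : MeasurableSet (AZ C z 1 1) := by
    have h1 : IsClosed {x : E n | far C x ≤ 1} := isClosed_le hcont continuous_const
    have h2 : IsClosed {x : E n | far C ((2 : ℝ) • z - x) ≤ 1} :=
      isClosed_le (hcont.comp (continuous_const.sub continuous_id)) continuous_const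
    exact (h1.inter h2).measurableSet
  have h1 : ∀ x ∈ AZ C z 1 1, (1 : ℝ≥0∞) ≤
      ENNReal.ofReal (Real.exp
        (t * (1 - (far C x ^ 2 + far C ((2 : ℝ) • z - x) ^ 2) / 2))) := by
    intro x hx
    rw [ENNReal.one_le_ofReal]
    have h2 := hnn x
    have h3 := hnn ((2 : ℝ) • z - x)
    have h4 : far C x ≤ 1 := hx.1
    have h5 : far C ((2 : ℝ) • z - x) ≤ 1 := hx.2
    refine Real.one_le_exp (mul_nonneg ht ?_)
    nlinarith
  calc volume (AZ C z 1 1)
      = ∫⁻ _ in AZ C z 1 1, (1 : ℝ≥0∞) := by rw [setLIntegral_one]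
    _ ≤ ∫⁻ x in AZ C z 1 1, ENNReal.ofReal (Real.exp
        (t * (1 - (far C x ^ 2 + far C ((2 : ℝ) • z - x) ^ 2) / 2))) :=
        setLIntegral_mono' hmeas h1
    _ ≤ IZ C z t := setLIntegral_le_lintegral _ _

end Pool.Agent.CI
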